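import Pool.Agent.KS6_21.TB.Fam

/-!
# MP_7cfe9c_gt: convex and concave parts of the Alexander coefficients, genus by genus

Every two-bridge knot of genus `g` is the boundary of a linear plumbing of `2g` unknotted annuli
with `b 0, …, b (2g-1)` full twists, all `b i ≠ 0` (its even continued fraction is
`[2 b_0, -2 b_1, …]`). The statement as printed in Q1 (convex, then concave) holds for `g ≤ 2` and
fails for infinitely many two-bridge knots of every genus `g ≥ 3`.
-/

set_option autoImplicit false

open Polynomial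

namespace Pool.Agent.Results.MP_7cfe9c_gt.EveryGenus

/-- Seifert matrix of the linear plumbing of `n` unknotted annuli with `b 0, …, b (n-1)` full
twists: the diagonal entries are the `b i`, the entries `(i, i+1)` are `1`. -/
def seifert (n : ℕ) (b : ℕ → ℤ) : Matrix (Fin n) (Fin n) ℤ :=
  fun i j => if i = j then b i else if (i : ℕ) + 1 = j then 1 else 0

/-- The Alexander polynomial `det (V - t Vᵀ)` for `V = seifert n b`. -/
noncomputable def alexander (n : ℕ) (b : ℕ → ℤ) : ℤ[X] :=
  ((seifert n b).map C - (X : ℤ[X]) • ((seifert n b).transpose).map C).det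

/-- `absCoeff g b i` is the number `a i` of the question: the absolute value of the coefficient
of `t ^ (g + i)` in `det (V - t Vᵀ)`, i.e. of `t ^ i` in the symmetrised polynomial. -/
noncomputable def absCoeff (g : ℕ) (b : ℕ → ℤ) (i : ℕ) : ℤ :=
  |(alexander (2 * g) b).coeff (g + i)|

/-- `(x l, …, x r)` is convex. -/
def ConvexOn (x : ℕ → ℤ) (l r : ℕ) : Prop :=
  ∀ i, l < i → i < r → 2 * x i ≤ x (i - 1) + x (i + 1)

/-- `(x l, …, x r)` is concave. -/
def ConcaveOn (x : ℕ → ℤ) (l r : ℕ) : Prop :=
  ∀ i, l < i → i < r → x (i - 1) + x (i + 1) ≤ 2 * x i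

/-- (1) For a two-bridge knot of genus `g` the polynomial `det (V - t Vᵀ)` has degree `2g`, its
coefficients are symmetric and alternate in sign, and `(a 0, …, a g)` is concave up to some `k` and
convex from `k` on. (2) If `g ≤ 2` it is also convex up to some `k` and concave from `k` on.
(3) For every `g ≥ 3` this fails for all but finitely many of the two-bridge knots whose `2g`
numbers `b i` are all equal to the same `c ≥ 1`; these have `a g = c ^ (2g)`, so they are different.
More precisely the sequence is strictly concave at `1` and strictly convex at `g - 1`. -/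
theorem result :
    (∀ (g : ℕ) (b : ℕ → ℤ), (∀ i < 2 * g, b i ≠ 0) →
      (alexander (2 * g) b).natDegree = 2 * g ∧
      (∃ s : ℤ, (s = 1 ∨ s = -1) ∧ ∀ i ≤ g, 0 < absCoeff g b i ∧
        (alexander (2 * g) b).coeff (g + i) = s * ((-1) ^ i * absCoeff g b i) ∧
        (alexander (2 * g) b).coeff (g - i) = s * ((-1) ^ i * absCoeff g b i)) ∧
      ∃ k ≤ g, ConcaveOn (absCoeff g b) 0 k ∧ ConvexOn (absCoeff g b) k g) ∧
    (∀ g ≤ 2, ∀ b : ℕ → ℤ, ∃ k ≤ g,
      ConvexOn (absCoeff g b) 0 k ∧ ConcaveOn (absCoeff g b) k g) ∧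
    (∀ g : ℕ, 3 ≤ g → ∃ c₀ : ℤ, 1 ≤ c₀ ∧ ∀ c : ℤ, c₀ ≤ c →
      absCoeff g (fun _ => c) g = c ^ (2 * g) ∧
      absCoeff g (fun _ => c) 0 + absCoeff g (fun _ => c) 2 < 2 * absCoeff g (fun _ => c) 1 ∧
      2 * absCoeff g (fun _ => c) (g - 1) <
        absCoeff g (fun _ => c) (g - 2) + absCoeff g (fun _ => c) g ∧
      ∀ k ≤ g, ¬ (ConvexOn (absCoeff g (fun _ => c)) 0 k ∧
        ConcaveOn (absCoeff g (fun _ => c)) k g)) := by
  refine ⟨Pool.Agent.Results.MP_7cfe9c_gt.TwoBridge.result.1, ?_, ?_⟩
  · intro g hg b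
    by_cases h2 : g ≤ 1
    · exact ⟨0, by omega, fun i h1 h2 => by omega, fun i h1 h2 => by omega⟩
    · by_cases h : 2 * absCoeff g b 1 ≤ absCoeff g b 0 + absCoeff g b 2
      · refine ⟨2, by omega, fun i h3 h4 => ?_, fun i h3 h4 => by omega⟩
        have e : i = 1 := by omega
        subst e
        exact h
      · refine ⟨0, by omega, fun i h3 h4 => by omega, fun i h3 h4 => ?_⟩
        have e : i = 1 := by omega
        subst e
        exact (not_le.1 h).le
  · intro g hg
    obtain ⟨c₀, h1, h⟩ := KS6_21.TB.family g hg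
    refine ⟨c₀, h1, fun c hc => ?_⟩
    obtain ⟨e1, e2, e3⟩ := h c hc
    refine ⟨e1, e2, e3, ?_⟩
    rintro k hk ⟨hx, hv⟩
    by_cases hk2 : k < 2
    · have h4 := hv (g - 1) (by omega) (by omega)
      have s1 : g - 1 - 1 = g - 2 := by omega
      have s2 : g - 1 + 1 = g := by omega
      rw [s1, s2] at h4
      exact absurd h4 (not_le.2 e3)
    · have h4 := hx 1 (by omega) (by omega)
      exact absurd h4 (not_le.2 e2)

end Pool.Agent.Results.MP_7cfe9c_gt.EveryGenus
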